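import Mathlib
import Pool.Agent.H759R2.Kad.Props4

open scoped ComplexOrder InnerProductSpace ComplexConjugate
open Finset

noncomputable section

namespace H759R2.Kad

universe u v

namespace S05

section

variable {H : Type v} [NormedAddCommGroup H] [InnerProductSpace ℂ H]

theorem rk_apply (ξ x : H) : rk ξ x = ⟪ξ, x⟫_ℂ • ξ := by
  simp [rk, InnerProductSpace.rankOne_apply]

theorem rk_smul (c : ℝ) (ξ : H) : rk ((c : ℂ) • ξ) = (c ^ 2) • rk ξ := by
  ext x
  rw [ContinuousLinearMap.smul_apply, rk_apply, rk_apply, inner_smul_left, smul_smul,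
    Complex.conj_ofReal, ← Complex.coe_smul, smul_smul]
  congr 1
  push_cast
  ring

/-- The map from formal real combinations to operators. -/
def R : (H →₀ ℝ) →ₗ[ℝ] (H →L[ℂ] H) := Finsupp.linearCombination ℝ rk

theorem R_single (ξ : H) (c : ℝ) : R (Finsupp.single ξ c) = c • rk ξ := by
  simp [R, Finsupp.linearCombination_single]

theorem R_apply (f : H →₀ ℝ) : R f = ∑ η ∈ f.support, f η • rk η := by
  simp [R, Finsupp.linearCombination_apply, Finsupp.sum]

/-- The sublinear functional. -/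
def N (C : ℝ) (f : H →₀ ℝ) : ℝ := ∑ η ∈ f.support, max (C * f η) (C⁻¹ * f η) * ‖η‖ ^ 2

theorem N_eq (C : ℝ) (f : H →₀ ℝ) (s : Finset H) (hs : f.support ⊆ s) :
    N C f = ∑ η ∈ s, max (C * f η) (C⁻¹ * f η) * ‖η‖ ^ 2 := by
  refine Finset.sum_subset hs fun η _ hη => ?_
  have : f η = 0 := by simpa using hη
  simp [this]

theorem N_smul (C : ℝ) (c : ℝ) (hc : 0 < c) (f : H →₀ ℝ) : N C (c • f) = c * N C f := by
  rw [N_eq C (c • f) f.support Finsupp.support_smul, N, Finset.mul_sum]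
  refine Finset.sum_congr rfl fun η _ => ?_
  rw [Finsupp.smul_apply, smul_eq_mul, ← mul_assoc c, mul_max_of_nonneg _ _ hc.le]
  congr 2 <;> ring

theorem N_add (C : ℝ) (f g : H →₀ ℝ) : N C (f + g) ≤ N C f + N C g := by
  classical
  rw [N_eq C (f + g) (f.support ∪ g.support) Finsupp.support_add,
    N_eq C f (f.support ∪ g.support) Finset.subset_union_left,
    N_eq C g (f.support ∪ g.support) Finset.subset_union_right, ← Finset.sum_add_distrib]
  refine Finset.sum_le_sum fun η _ => ?_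
  rw [← add_mul]
  refine mul_le_mul_of_nonneg_right ?_ (by positivity)
  rw [Finsupp.add_apply, mul_add, mul_add]
  exact max_add_add_le_max_add_max

theorem N_single (C : ℝ) (ξ : H) (c : ℝ) :
    N C (Finsupp.single ξ c) = max (C * c) (C⁻¹ * c) * ‖ξ‖ ^ 2 := by
  rw [N_eq C _ {ξ} Finsupp.support_single_subset]
  simp

end

section

variable {A : Type u} [CStarAlgebra A]
  {H : Type v} [NormedAddCommGroup H] [InnerProductSpace ℂ H]
  (w : A →ₗ[ℂ] (H →L[ℂ] H))

theorem w_inv (hw : IsHom w) (g : unitary A) (ξ : H) :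
    w ((g⁻¹ : unitary A) : A) (w (g : A) ξ) = ξ := by
  have h : w ((g⁻¹ : unitary A) : A) * w (g : A) = 1 := by
    rw [← hw.mul, ← Submonoid.coe_mul, inv_mul_cancel]
    exact hw.one
  exact congrArg (fun T : H →L[ℂ] H => T ξ) h

/-- The subspace on which the functional vanishes. -/
def W (hw : IsHom w) : Submodule ℝ (H →₀ ℝ) where
  carrier := {f | ∃ (n : ℕ) (g : Fin n → unitary A) (ξ : Fin n → H),
    R f = ∑ i, (rk (w (g i : A) (ξ i)) - rk (ξ i))}
  zero_mem' := ⟨0, Fin.elim0, Fin.elim0, by simp⟩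
  add_mem' := by
    rintro f f' ⟨n, g, ξ, h⟩ ⟨n', g', ξ', h'⟩
    refine ⟨n + n', Fin.append g g', Fin.append ξ ξ', ?_⟩
    rw [map_add, h, h', Fin.sum_univ_add]
    simp
  smul_mem' := by
    rintro c f ⟨n, g, ξ, h⟩
    rcases le_total 0 c with hc | hc
    · refine ⟨n, g, fun i => ((Real.sqrt c : ℝ) : ℂ) • ξ i, ?_⟩
      rw [map_smul, h, Finset.smul_sum]
      refine Finset.sum_congr rfl fun i _ => ?_
      rw [map_smul, rk_smul, rk_smul, Real.sq_sqrt hc, smul_sub]
    · refine ⟨n, fun i => (g i)⁻¹, fun i => ((Real.sqrt (-c) : ℝ) : ℂ) • w (g i : A) (ξ i), ?_⟩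
      rw [map_smul, h, Finset.smul_sum]
      refine Finset.sum_congr rfl fun i _ => ?_
      rw [map_smul, w_inv w hw, rk_smul, rk_smul, Real.sq_sqrt (by linarith), smul_sub, neg_smul,
        neg_smul]
      abel

theorem N_nonneg [PartialOrder A] [StarOrderedRing A] [CompleteSpace H] (h1 : S_key.{u, v})
    (hw : IsHom w) (C : ℝ) (hC : 1 ≤ C) (hcb : ∀ m, LvlBd w m C) (f : H →₀ ℝ)
    (hf : f ∈ W w hw) : 0 ≤ N C f := by
  classical
  obtain ⟨n, g, ξ, h⟩ := hf
  have hC0 : 0 < C := by linarith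
  -- enumerate the support
  set m := f.support.card with hm
  let e : Fin m ≃ f.support := f.support.equivFin.symm
  let μ : Fin m → H := fun j => ((Real.sqrt (max (f (e j)) 0) : ℝ) : ℂ) • (e j : H)
  let κ : Fin m → H := fun j => ((Real.sqrt (max (-(f (e j))) 0) : ℝ) : ℂ) • (e j : H)
  have hμ : ∀ j, rk (μ j) = max (f (e j)) 0 • rk (e j : H) := fun j => by
    rw [rk_smul, Real.sq_sqrt (le_max_right _ _)]
  have hκ : ∀ j, rk (κ j) = max (-(f (e j))) 0 • rk (e j : H) := fun j => by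
    rw [rk_smul, Real.sq_sqrt (le_max_right _ _)]
  have hμn : ∀ j, ‖μ j‖ ^ 2 = max (f (e j)) 0 * ‖(e j : H)‖ ^ 2 := fun j => by
    rw [norm_smul, mul_pow, Complex.norm_real, Real.norm_eq_abs, sq_abs,
      Real.sq_sqrt (le_max_right _ _)]
  have hκn : ∀ j, ‖κ j‖ ^ 2 = max (-(f (e j))) 0 * ‖(e j : H)‖ ^ 2 := fun j => by
    rw [norm_smul, mul_pow, Complex.norm_real, Real.norm_eq_abs, sq_abs,
      Real.sq_sqrt (le_max_right _ _)]
  have hR : R f = ∑ j, (rk (μ j) - rk (κ j)) := by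
    rw [R_apply, ← Finset.sum_coe_sort f.support (fun η => f η • rk η), ← e.sum_comp]
    refine Finset.sum_congr rfl fun j _ => ?_
    rw [hμ, hκ, ← sub_smul]
    congr 1
    rcases le_total 0 (f (e j)) with h0 | h0
    · rw [max_eq_left h0, max_eq_right (by linarith)]; ring
    · rw [max_eq_right h0, max_eq_left (by linarith)]; ring
  have hop : ∑ i, rk (w (g i : A) (ξ i)) + ∑ j, rk (κ j) =
      ∑ i, rk (ξ i) + ∑ j, rk (μ j) := by
    have := h.symm.trans hR
    rw [Finset.sum_sub_distrib, Finset.sum_sub_distrib] at this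
    rw [sub_eq_sub_iff_add_eq_add] at this
    rw [this]
    exact add_comm _ _
  have hk := h1 A H w hw C hC0.le hcb (Fin n) (Fin m) g ξ μ κ (fun x => by
    have := congrArg (fun T : H →L[ℂ] H => T x) hop
    simpa [ContinuousLinearMap.sum_apply, rk_apply] using this)
  have hN : N C f = C * ∑ j, ‖μ j‖ ^ 2 - C⁻¹ * ∑ j, ‖κ j‖ ^ 2 := by
    rw [N, ← Finset.sum_coe_sort f.support
      (fun η => max (C * f η) (C⁻¹ * f η) * ‖η‖ ^ 2), ← e.sum_comp, Finset.mul_sum, Finset.mul_sum,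
      ← Finset.sum_sub_distrib]
    refine Finset.sum_congr rfl fun j _ => ?_
    rw [hμn, hκn, ← mul_assoc, ← mul_assoc, ← sub_mul]
    congr 1
    have hC1 : C⁻¹ ≤ C := (inv_le_one_of_one_le₀ hC).trans hC
    rcases le_total 0 (f (e j)) with h0 | h0
    · rw [max_eq_left h0, max_eq_right (by linarith : -(f (e j)) ≤ 0),
        max_eq_left (mul_le_mul_of_nonneg_right hC1 h0)]
      ring
    · rw [max_eq_right h0, max_eq_left (by linarith : 0 ≤ -(f (e j))),
        max_eq_right (by nlinarith)]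
      ring
  rw [hN, sub_nonneg]
  calc C⁻¹ * ∑ j, ‖κ j‖ ^ 2 ≤ C⁻¹ * (C ^ 2 * ∑ j, ‖μ j‖ ^ 2) :=
        mul_le_mul_of_nonneg_left hk (by positivity)
    _ = C * ∑ j, ‖μ j‖ ^ 2 := by field_simp

end

end S05

theorem prove4_hb (h1 : S_key.{u, v}) (h2 : S_free.{v}) : S_hb.{u, v} := by
  intro A _ _ _ H _ _ _ w hw C hC hcb
  have hC0 : 0 < C := by linarith
  have hC1 : C⁻¹ ≤ C := (inv_le_one_of_one_le₀ hC).trans hC
  obtain ⟨G, hG, hGN⟩ := exists_extension_of_le_sublinear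
    (⟨S05.W w hw, 0⟩ : (H →₀ ℝ) →ₗ.[ℝ] ℝ) (S05.N C) (fun c hc x => S05.N_smul C c hc x)
    (S05.N_add C) (fun x => S05.N_nonneg w h1 hw C hC hcb x.1 x.2)
  have hG0 : ∀ f ∈ S05.W w hw, G f = 0 := fun f hf => hG ⟨f, hf⟩
  have hker : G ∈ (LinearMap.ker (S05.R (H := H))).dualAnnihilator := by
    rw [Submodule.mem_dualAnnihilator]
    intro f hf
    refine hG0 f ⟨0, Fin.elim0, Fin.elim0, ?_⟩
    simpa using hf
  rw [← LinearMap.range_dualMap_eq_dualAnnihilator_ker] at hker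
  obtain ⟨φ, hφ⟩ := hker
  have hφR : ∀ f, φ (S05.R f) = G f := fun f => by rw [← hφ]; rfl
  have hrk : ∀ ξ : H, φ (rk ξ) = G (Finsupp.single ξ 1) := fun ξ => by
    rw [← hφR, S05.R_single, one_smul]
  refine ⟨φ, fun ξ => ⟨?_, ?_⟩, fun g ξ => ?_⟩
  · have := hGN (Finsupp.single ξ (-1))
    rw [S05.N_single, Finsupp.single_neg, map_neg, ← hrk,
      max_eq_right (by linarith : C * -1 ≤ C⁻¹ * -1)] at this
    linarith
  · have := hGN (Finsupp.single ξ 1)
    rw [S05.N_single, ← hrk, max_eq_left (by linarith : C⁻¹ * 1 ≤ C * 1)] at this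
    linarith
  · rw [hrk, hrk, ← sub_eq_zero, ← map_sub]
    refine hG0 _ ⟨1, fun _ => g, fun _ => ξ, ?_⟩
    rw [map_sub, S05.R_single, S05.R_single, one_smul, one_smul]
    simp

end H759R2.Kad
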